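import Pool.Agent.H8.SG.Fin
import Pool.Agent.H69.CU.BadS

/-!
[H8 SG MAIN] gaps between cyclic numbers in short intervals.
-/

namespace Pool.Agent.H8.SG

open Finset Classical Pool.Agent.H89.CY

theorem hb : ∀ d : ℝ, 0 < d → d ≤ 1 / 10 → ∃ (C0 W0 : ℝ) (x0 : ℕ), 0 < C0 ∧ BadB d C0 W0 x0 := by
  intro d hd hd1
  obtain ⟨C, W0, hC, _, x0, _, h⟩ := Pool.Agent.H69.CU.bad_s d hd hd1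
  exact ⟨C, W0, x0, hC, fun x y hx hy hyx w hw => h x y hx hy hyx w hw⟩

theorem main3 :
    (∀ ε : ℝ, 0 < ε → ∃ c' : ℝ, 0 < c' ∧ ∀ δ : ℝ, 0 < δ → ∃ C : ℝ, 0 < C ∧ ∀ x y : ℕ, 2 ≤ x →
      (x : ℝ) ^ (2 / 5 + δ) ≤ y → y ≤ x → (NS (Long ε) x y : ℝ) ≤ C * y * Real.exp (-(Real.log x) ^ c')) ∧
    (∃ c' : ℝ, 0 < c' ∧ ∀ δ : ℝ, 0 < δ →
      (∃ C : ℝ, 0 < C ∧ ∀ x y : ℕ, 2 ≤ x → (x : ℝ) ^ (2 / 5 + δ) ≤ y → y ≤ x →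
        (NS Fails x y : ℝ) ≤ C * y * Real.exp (-(Real.log x) ^ c')) ∧
      (∀ lam : ℝ, 0 < lam → ∃ C : ℝ, 0 < C ∧ ∀ x y : ℕ, 2 ≤ x → (x : ℝ) ^ (2 / 5 + δ) ≤ y → y ≤ x →
        (NS (FailsL lam) x y : ℝ) ≤ C * y * Real.exp (-(Real.log x) ^ c'))) :=
  finA hb

end Pool.Agent.H8.SG
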