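import Pool.Agent.H8.SG.Gen
import Pool.Agent.H89.CY.FinP

/-!
[H8 SG ASM] the number of n in P (long gaps) with c n in (X, X + H] is at most H exp (- u / 3), u = (log X)^(1/(K C)),
if X ^ (2/5 + d) ≤ H ≤ X / 2. The proof follows finP of H89/CY (helper89).
-/

namespace Pool.Agent.H8.SG

open Finset Classical Filter Pool.Agent.H89.CY
open Pool.Agent.H69.CP (Rough)

/-- the bound for the rough numbers in a short interval which are not cyclic -/
def BadB (d C0 W0 : ℝ) (x0 : ℕ) : Prop := ∀ x y : ℕ, x0 ≤ x → (x : ℝ) ^ (2 / 5 + d) ≤ y → y ≤ x → ∀ w : ℝ, W0 ≤ w →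
  (((Ioc x (x + y)).filter fun m => ¬ Pool.Agent.H69.CY.IsCyclicNumber m ∧ Rough w m).card : ℝ) ≤
    C0 * Real.log x ^ 2 * y / w + y * (x : ℝ) ^ (-d / 8)

private theorem exp_a (L : ℝ) (h : 1000 ≤ L) : L ≤ Real.exp (2 / 5 * L) := by
  have h1 : Real.exp (2 / 5 * L) = Real.exp (L / 5) * Real.exp (L / 5) := by
    rw [← Real.exp_add]; congr 1; ring
  have h2 := Real.add_one_le_exp (L / 5)
  rw [h1]
  nlinarith

private theorem exp_b (U : ℝ) (h : 1000 ≤ U) : 2 * U ≤ Real.exp U := by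
  have h1 : Real.exp U = Real.exp (U / 2) * Real.exp (U / 2) := by rw [← Real.exp_add]; congr 1; ring
  have h2 := Real.add_one_le_exp (U / 2)
  rw [h1]
  nlinarith

private theorem exp_c (L d : ℝ) (hL : 0 ≤ L) (hd : 0 < d) : 2 / 5 * L ≤ L * (2 / 5 + d) := by
  nlinarith [mul_nonneg hL hd.le]

private theorem kD_a (k D : ℕ) (hD : 1 ≤ D) : (k : ℝ) ≤ (((k + 1) * D : ℕ) : ℝ) := by
  exact_mod_cast (show k ≤ (k + 1) * D by nlinarith)

private theorem pow_a (U L : ℝ) (hU : 1000 ≤ U) (h : U ^ 9 * 100 ≤ L) : U ^ 8 + U ≤ L / 100 ∧ 100 * U ≤ L := by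
  have h0 : 0 ≤ U ^ 8 := by positivity
  have h1 : U ^ 9 = U * U ^ 8 := by ring
  have h2 : 2 * U ^ 8 ≤ U * U ^ 8 := by nlinarith
  have h3 : U ≤ U ^ 8 := by
    have := pow_le_pow_right₀ (show 1 ≤ U by linarith) (show 1 ≤ 8 by norm_num)
    rwa [pow_one] at this
  constructor <;> linarith

private theorem dL_a (U L d : ℝ) (hU : 1000 ≤ U) (hd : 0 < d) (hdU : 1 / d ≤ U) (h : U ^ 9 * 100 ≤ L) :
    U ≤ d * L / 8 := by
  have h1 : 1 ≤ d * U := by
    rw [div_le_iff₀ hd] at hdU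
    linarith
  have h8 : U ≤ U ^ 8 := by
    have := pow_le_pow_right₀ (show 1 ≤ U by linarith) (show 1 ≤ 8 by norm_num)
    rwa [pow_one] at this
  have h3 : U ^ 9 = U * U ^ 8 := by ring
  have h4 : 1 * U ^ 8 ≤ (d * U) * U ^ 8 := by gcongr
  have h5 : d * (U ^ 9 * 100) ≤ d * L := by gcongr
  have h6 : d * (U ^ 9 * 100) = 100 * ((d * U) * U ^ 8) := by rw [h3]; ring
  linarith

theorem finS : ∃ C : ℕ, 2 ≤ C ∧ ∀ K : ℕ, 5 ≤ K → ∀ (d C0 W0 : ℝ) (x0 : ℕ), 0 < d → 0 < C0 → BadB d C0 W0 x0 →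
    ∃ u0 : ℕ, 1 ≤ u0 ∧ ∀ u : ℕ, u0 ≤ u → ∀ X H : ℕ,
    Real.exp ((u : ℝ) ^ (K * C)) ≤ X → (X : ℝ) ≤ Real.exp (((u : ℝ) + 1) ^ (K * C)) →
    (X : ℝ) ^ (2 / 5 + d) ≤ H → 2 * H ≤ X →
    ∀ P : ℕ → Prop, (∀ n, 2 ≤ n → P n → X < c n → (c n : ℝ) + (u : ℝ) ^ (5 * C) / 2 ≤ c (n + 1)) →
    (({n | 2 ≤ n ∧ P n ∧ X < c n ∧ c n ≤ X + H}.ncard : ℕ) : ℝ) ≤ H * Real.exp (-((u : ℝ) / 3)) := by
  obtain ⟨c0, hc0, hdlt⟩ := dlt
  obtain ⟨w, C, y0, c', hw2, hC, hc, hwy0, hblk⟩ := blk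
  refine ⟨C, hC, fun K hK d C0 W0 x0 hd hC0 hbad => ?_⟩
  obtain ⟨v3, hv3⟩ := eventually_atTop.1 (ev_pow6 ((2 * K + 4) * C + 3))
  have hlog : ∀ᶠ u : ℕ in atTop, Real.log u ≤ c' / 4 * u := by
    have h1 := (Real.isLittleO_log_id_atTop.bound (show (0 : ℝ) < c' / 4 by positivity))
    have h2 := tendsto_natCast_atTop_atTop (R := ℝ) |>.eventually h1
    filter_upwards [h2, eventually_ge_atTop 1] with u hu hu1
    simp only [id, Real.norm_eq_abs] at hu
    have h3 : (0 : ℝ) ≤ Real.log u := Real.log_nonneg (by exact_mod_cast hu1)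
    rw [abs_of_nonneg h3, abs_of_nonneg (Nat.cast_nonneg _)] at hu
    exact hu
  obtain ⟨v4, hv4⟩ := eventually_atTop.1 hlog
  obtain ⟨v6, hv6⟩ := exists_nat_ge (1 / c0)
  obtain ⟨v7, hv7⟩ := exists_nat_ge (max (4 * C0) (max (1 / d) W0))
  set D := primorial w with hD
  refine ⟨max (max (max v3 v4) (max v7 x0)) (max (max v6 y0) (max 1000 (max (4 * D) (2 ^ (K * C))))), ?_, ?_⟩
  · exact le_trans (by norm_num : 1 ≤ 1000)
      ((le_max_left _ _).trans ((le_max_right _ _).trans (le_max_right _ _)))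
  intro u hu X H hX1 hX2 hH1 hH2 P hP
  have ha := le_trans (le_max_left _ _) hu
  have a3 : v3 ≤ u := le_trans (le_trans (le_max_left _ _) (le_max_left _ _)) ha
  have a4 : v4 ≤ u := le_trans (le_trans (le_max_right _ _) (le_max_left _ _)) ha
  have a7 : v7 ≤ u := le_trans (le_trans (le_max_left _ _) (le_max_right _ _)) ha
  have a8 : x0 ≤ u := le_trans (le_trans (le_max_right _ _) (le_max_right _ _)) ha
  have a6 : v6 ≤ u := le_trans (le_trans (le_trans (le_max_left _ _) (le_max_left _ _)) (le_max_right _ _)) hu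
  have ay : y0 ≤ u := le_trans (le_trans (le_trans (le_max_right _ _) (le_max_left _ _)) (le_max_right _ _)) hu
  have ar : max 1000 (max (4 * D) (2 ^ (K * C))) ≤ u :=
    le_trans (le_trans (le_max_right _ _) (le_max_right _ _)) hu
  have a5 : 1000 ≤ u := le_trans (le_max_left _ _) ar
  have aD : 4 * D ≤ u := le_trans (le_trans (le_max_left _ _) (le_max_right _ _)) ar
  have a2 : 2 ^ (K * C) ≤ u := le_trans (le_trans (le_max_right _ _) (le_max_right _ _)) ar
  clear hu ar ha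
  set U : ℝ := (u : ℝ) with hU
  have b5 : (1000 : ℝ) ≤ U := by rw [hU]; exact_mod_cast a5
  have b0 : (0 : ℝ) < U := by linarith
  have b1 : (1 : ℝ) ≤ U := by linarith
  have bD : 4 * (D : ℝ) ≤ U := by rw [hU]; exact_mod_cast aD
  have b2 : (2 : ℝ) ^ (K * C) ≤ U := by rw [hU]; exact_mod_cast a2
  have bp' : U ^ ((2 * K + 4) * C + 3) ≤ Real.exp (U / 6) := hv3 u a3
  have bp : U ^ ((K + 4) * C + 2) ≤ Real.exp (U / 6) := by
    refine le_trans (pow_le_pow_right₀ b1 ?_) bp'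
    have : K * C ≤ 2 * K * C := by
      have : 2 * K * C = K * C + K * C := by ring
      omega
    have e1 : (K + 4) * C = K * C + 4 * C := by ring
    have e2 : (2 * K + 4) * C = 2 * K * C + 4 * C := by ring
    omega
  have blog : Real.log U ≤ c' / 4 * U := hv4 u a4
  have bc0 : 1 / c0 ≤ U := hv6.trans (by rw [hU]; exact_mod_cast a6)
  have b7 : max (4 * C0) (max (1 / d) W0) ≤ U := hv7.trans (by rw [hU]; exact_mod_cast a7)
  have bC0 : 4 * C0 ≤ U := (le_max_left _ _).trans b7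
  have bd : 1 / d ≤ U := (le_max_left _ _).trans ((le_max_right _ _).trans b7)
  have bW : W0 ≤ U := (le_max_right _ _).trans ((le_max_right _ _).trans b7)
  -- X and its logarithm
  have hX0 : (0 : ℝ) < X := lt_of_lt_of_le (Real.exp_pos _) hX1
  set L := Real.log X with hL
  have hL1 : U ^ (K * C) ≤ L := by rw [hL, Real.le_log_iff_exp_le hX0]; exact hX1
  have hL2 : L ≤ (U + 1) ^ (K * C) := by rw [hL, Real.log_le_iff_le_exp hX0]; exact hX2
  have hXL : (X : ℝ) = Real.exp L := (Real.exp_log hX0).symm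
  obtain ⟨s1, s2, s3, s4⟩ := sizesP K C D hK hC U L (by linarith) bD hL1 hL2 b2 bp
  have hU9 : U ≤ U ^ 9 := by
    have := pow_le_pow_right₀ b1 (show 1 ≤ 9 by norm_num)
    rwa [pow_one] at this
  have hU8 : U ≤ U ^ 8 := by
    have := pow_le_pow_right₀ b1 (show 1 ≤ 8 by norm_num)
    rwa [pow_one] at this
  have hLU : 100 * U ≤ L := (pow_a U L b5 s2).2
  have hLbig : (1000 : ℝ) ≤ L := by linarith only [hLU, b5]
  -- the length
  have hHe : Real.exp (2 / 5 * L) ≤ H := by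
    refine le_trans ?_ hH1
    rw [hXL, ← Real.exp_mul]
    exact Real.exp_le_exp.2 (exp_c L d (by linarith only [hLbig]) hd)
  have hLH : L ≤ H := by
    exact le_trans (exp_a L hLbig) hHe
  have hH0 : (0 : ℝ) < H := by linarith
  have hH1000 : 1000 ≤ H := by
    have : (1000 : ℝ) ≤ H := by linarith
    exact_mod_cast this
  -- parameters
  set y := u ^ 4 with hy
  set k := u ^ (4 * C) with hk
  set z := ⌊Real.exp U⌋₊ with hz
  have hkU : (k : ℝ) = U ^ (4 * C) := by rw [hk]; push_cast; rfl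
  have hzle : (z : ℝ) ≤ Real.exp U := Nat.floor_le (Real.exp_pos _).le
  have hexpU : U + 1 ≤ Real.exp U := Real.add_one_le_exp U
  have hexpU2 : 2 * U ≤ Real.exp U := exp_b U b5
  have hzge : Real.exp U / 2 ≤ z := by
    have h1 := Nat.lt_floor_add_one (Real.exp U)
    rw [← hz] at h1
    linarith
  have hz3 : 3 ≤ z := by
    have : (3 : ℝ) ≤ z := by linarith
    exact_mod_cast this
  have hzW : W0 ≤ z := by linarith
  have hz0 : (0 : ℝ) < z := by linarith
  have huy : u ≤ y := by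
    rw [hy]
    calc u = u ^ 1 := (pow_one u).symm
      _ ≤ u ^ 4 := Nat.pow_le_pow_right (by omega) (by norm_num)
  have hwy : w < y := by omega
  have hyk : y ^ C ≤ k := by rw [hy, hk, ← pow_mul]
  have hk1 : 1 ≤ k := Nat.one_le_pow _ _ (by omega)
  have hD2 : 2 ≤ D := two_le_prim w hw2
  have hkD1 : (((k + 1) * D : ℕ) : ℝ) ≤ U ^ (5 * C) / 2 := by
    push_cast
    rw [hkU]
    exact s1
  have hkD : (((k + 1) * D : ℕ) : ℝ) ≤ L / 2 := by
    refine hkD1.trans ?_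
    have : U ^ (5 * C) ≤ U ^ (K * C) := pow_le_pow_right₀ b1 (Nat.mul_le_mul_right C hK)
    linarith
  have hkD2 : (((k + 2) * D + 1 : ℕ) : ℝ) ≤ L := by
    have e : (k + 2) * D + 1 = (k + 1) * D + (D + 1) := by ring
    rw [e, Nat.cast_add]
    push_cast at hkD ⊢
    linarith
  have hH'1 : H ≤ H + (k + 2) * D + 1 := by omega
  have hH'2 : ((H + (k + 2) * D + 1 : ℕ) : ℝ) ≤ 2 * H := by
    rw [Nat.add_assoc, Nat.cast_add]
    linarith
  have hH'3 : H + (k + 2) * D + 1 ≤ X := by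
    have h1 : ((H + (k + 2) * D + 1 : ℕ) : ℝ) ≤ X := by
      refine hH'2.trans ?_
      exact_mod_cast hH2
    exact_mod_cast h1
  have hPA : ∀ n, 2 ≤ n → P n → X < c n → c n + (k + 1) * D ≤ c (n + 1) := by
    intro n hn hPn hAn
    have h2 := hP n hn hPn hAn
    have h3 : ((c n + (k + 1) * D : ℕ) : ℝ) ≤ (c (n + 1) : ℝ) := by
      rw [Nat.cast_add]
      linarith
    exact_mod_cast h3
  have hJ : ∀ a : ℕ, ∃ b : ℕ, b + y ≤ k ∧
      u ^ 3 ≤ ((range y).filter (fun j => ∀ p ∈ PR w y, ¬ p ∣ 1 + D * (a + b + j))).card := by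
    intro a
    obtain ⟨b, hb1, hb2⟩ := hblk y (by omega) k hyk a
    refine ⟨b, hb1, ?_⟩
    have h1 : (U : ℝ) ^ 3 ≤ c' * y / Real.log y := by
      have h2 : Real.log (y : ℝ) = 4 * Real.log U := by
        rw [hy, hU]; push_cast; rw [Real.log_pow]; norm_num
      have h3 : 0 < Real.log U := Real.log_pos (by linarith)
      rw [h2, le_div_iff₀ (by positivity), hy]
      push_cast
      calc U ^ 3 * (4 * Real.log U) ≤ U ^ 3 * (4 * (c' / 4 * U)) := by gcongr
        _ = c' * U ^ 4 := by ring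
    have h4 := h1.trans hb2
    rw [hU] at h4
    exact_mod_cast h4
  have hx0X : x0 ≤ X := by
    have h1 : (x0 : ℝ) ≤ X := by
      have h2 : (x0 : ℝ) ≤ U := by rw [hU]; exact_mod_cast a8
      have h3 := Real.add_one_le_exp L
      rw [hXL]
      linarith
    exact_mod_cast h1
  have hB := hbad X (H + (k + 2) * D + 1) hx0X (hH1.trans (by exact_mod_cast hH'1)) hH'3 (z : ℝ) hzW
  have hmain := genS P w y k z D (u ^ 6) (u ^ 3) X H hwy rfl hD2 hPA hJ _ hB
  -- the terms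
  have hU4 : U ^ 4 ≤ Real.exp U := by
    have h0 : (K + 4) * C + 2 = K * C + 4 * C + 2 := by ring
    have h1 : U ^ 4 ≤ U ^ ((K + 4) * C + 2) := pow_le_pow_right₀ b1 (by omega)
    have h2 : Real.exp (U / 6) ≤ Real.exp U := Real.exp_le_exp.2 (by linarith)
    exact h1.trans (bp.trans h2)
  have e1 := F1_le c0 hc0 hdlt u y z bc0 (by omega) hz3 hzle
  have e2 := F2_le u y z (by omega) hy (by omega) hzle
  have e3 := F3_le u w y z (by omega) hy hzle hU4
  clear hblk hdlt hJ hv3 hv4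
  have hk16 : (k : ℝ) + 1 ≤ Real.exp (U / 6) := by
    rw [hkU]
    have : 1 ≤ U ^ (4 * C) := one_le_pow₀ b1
    linarith
  have h8L : U ^ 8 + U ≤ L / 100 := (pow_a U L b5 s2).1
  have t3 : ((k : ℝ) + 1) * (4 * ((∏ p ∈ PR w y, p : ℕ) : ℝ) * (3 * ((z : ℝ) * y + 1)) ^ (u ^ 6)) ≤
      H * Real.exp (-(U * (5 / 6))) := by
    calc ((k : ℝ) + 1) * (4 * ((∏ p ∈ PR w y, p : ℕ) : ℝ) * (3 * ((z : ℝ) * y + 1)) ^ (u ^ 6))
        ≤ Real.exp (U / 6) * Real.exp (U ^ 8) := by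
          apply mul_le_mul hk16 e3 (by positivity) (by positivity)
      _ = Real.exp (U / 6 + U ^ 8) := by rw [Real.exp_add]
      _ ≤ Real.exp (2 / 5 * L + -(U * (5 / 6))) := by
          apply Real.exp_le_exp.2
          linarith
      _ = Real.exp (2 / 5 * L) * Real.exp (-(U * (5 / 6))) := by rw [Real.exp_add]
      _ ≤ H * Real.exp (-(U * (5 / 6))) := by gcongr
  have hTQ : (((H / D + 2 : ℕ) : ℝ) + k + (∏ p ∈ PR w y, p : ℕ)) ≤ 3 * H := by
    have h1 : ((H / D + 2 : ℕ) : ℝ) ≤ H := by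
      have h2 : H / D ≤ H / 2 := Nat.div_le_div_left hD2 (by norm_num)
      exact_mod_cast (by omega : H / D + 2 ≤ H)
    have h4 : ((∏ p ∈ PR w y, p : ℕ) : ℝ) ≤ H := by
      refine (Q_le w y).trans (le_trans ?_ hHe)
      apply Real.exp_le_exp.2
      have h3 : (y : ℝ) = U ^ 4 := by rw [hy]; push_cast; rfl
      rw [h3]
      have h5 : U ^ 4 ≤ U ^ 8 := pow_le_pow_right₀ b1 (by norm_num)
      linarith
    have h7 : (k : ℝ) ≤ H := by
      have h8 := kD_a k D (by omega)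
      linarith only [h8, hkD, hLH, hLbig]
    linarith only [h1, h4, h7]
  have hprod : 0 ≤ (1 - ∏ p ∈ PR y z, (1 - 1 / (p : ℝ))) := by
    have : ∏ p ∈ PR y z, (1 - 1 / (p : ℝ)) ≤ 1 := by
      apply prod_le_one
      · intro p hp
        unfold PR at hp
        rw [mem_filter] at hp
        have : (1 : ℝ) / p ≤ 1 := by
          rw [div_le_one (by exact_mod_cast hp.2.pos)]
          exact_mod_cast hp.2.one_lt.le
        linarith
      · intro p hp
        have : (0 : ℝ) ≤ 1 / p := by positivity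
        linarith
    linarith
  have t2 : ((k : ℝ) + 1) * ((((H / D + 2 : ℕ) : ℝ) + k + (∏ p ∈ PR w y, p : ℕ)) *
        ((1 - ∏ p ∈ PR y z, (1 - 1 / (p : ℝ))) ^ (u ^ 3) +
        2 * Real.exp (9 * (y * ∑ p ∈ PR y z, 1 / (p : ℝ))) / 3 ^ (u ^ 6))) ≤
        6 * (H * Real.exp (-(U * (5 / 6)))) := by
    calc _ ≤ Real.exp (U / 6) * (3 * (H : ℝ) * (2 * Real.exp (-U))) := by
          apply mul_le_mul hk16 _ (by positivity) (by positivity)
          apply mul_le_mul hTQ (by linarith) (by positivity) (by positivity)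
      _ = 6 * (H * (Real.exp (U / 6) * Real.exp (-U))) := by ring
      _ = 6 * (H * Real.exp (-(U * (5 / 6)))) := by
          rw [← Real.exp_add]
          congr 3
          ring
  have hLup : L ≤ U * U ^ (K * C) := by
    refine hL2.trans ?_
    have e1 : (U + 1) ^ (K * C) ≤ (2 * U) ^ (K * C) := by
      apply pow_le_pow_left₀ (by linarith)
      linarith
    refine e1.trans ?_
    rw [mul_pow]
    gcongr
  have hkL : 4 * C0 * k * L ^ 2 ≤ Real.exp (U / 6) := by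
    calc 4 * C0 * k * L ^ 2 ≤ U * U ^ (4 * C) * (U * U ^ (K * C)) ^ 2 := by
          rw [hkU]
          have : 0 ≤ L := by linarith
          gcongr
      _ = U ^ ((2 * K + 4) * C + 3) := by ring
      _ ≤ Real.exp (U / 6) := bp'
  have hXd : (X : ℝ) ^ (-d / 8) ≤ Real.exp (-U) := by
    rw [hXL, ← Real.exp_mul]
    apply Real.exp_le_exp.2
    have h1 := dL_a U L d b5 hd bd s2
    have e : L * (-d / 8) = -(d * L / 8) := by ring
    rw [e]
    linarith only [h1]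
  have t4 : (k : ℝ) * (C0 * Real.log X ^ 2 * ((H + (k + 2) * D + 1 : ℕ) : ℝ) / z +
      ((H + (k + 2) * D + 1 : ℕ) : ℝ) * (X : ℝ) ^ (-d / 8)) ≤ 2 * (H * Real.exp (-(U * (5 / 6)))) := by
    rw [← hL]
    set H' : ℝ := ((H + (k + 2) * D + 1 : ℕ) : ℝ) with hH'
    have hH'0 : 0 ≤ H' := by rw [hH']; positivity
    have hee : Real.exp (U / 6) * Real.exp (-U) = Real.exp (-(U * (5 / 6))) := by
      rw [← Real.exp_add]; congr 1; ring
    have h1 : C0 * L ^ 2 * H' / z ≤ 4 * C0 * L ^ 2 * H * Real.exp (-U) := by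
      have h2 : C0 * L ^ 2 * H' / z ≤ C0 * L ^ 2 * (2 * H) / (Real.exp U / 2) := by gcongr
      have h3 : C0 * L ^ 2 * (2 * H) / (Real.exp U / 2) = 4 * C0 * L ^ 2 * H * Real.exp (-U) := by
        rw [Real.exp_neg]
        field_simp
        ring
      linarith
    have h4 : (k : ℝ) * (C0 * L ^ 2 * H' / z) ≤ H * Real.exp (-(U * (5 / 6))) := by
      calc (k : ℝ) * (C0 * L ^ 2 * H' / z) ≤ (k : ℝ) * (4 * C0 * L ^ 2 * H * Real.exp (-U)) := by gcongr
        _ = H * ((4 * C0 * k * L ^ 2) * Real.exp (-U)) := by ring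
        _ ≤ H * (Real.exp (U / 6) * Real.exp (-U)) := by gcongr
        _ = H * Real.exp (-(U * (5 / 6))) := by rw [hee]
    have h5 : (k : ℝ) * (H' * (X : ℝ) ^ (-d / 8)) ≤ H * Real.exp (-(U * (5 / 6))) := by
      have h6 : 2 * (k : ℝ) ≤ Real.exp (U / 6) := by rw [hkU]; exact s3
      calc (k : ℝ) * (H' * (X : ℝ) ^ (-d / 8)) ≤ (k : ℝ) * ((2 * H) * Real.exp (-U)) := by gcongr
        _ = H * ((2 * (k : ℝ)) * Real.exp (-U)) := by ring
        _ ≤ H * (Real.exp (U / 6) * Real.exp (-U)) := by gcongr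
        _ = H * Real.exp (-(U * (5 / 6))) := by rw [hee]
    rw [mul_add]
    linarith
  have hfin : (({n | 2 ≤ n ∧ P n ∧ X < c n ∧ c n ≤ X + H}.ncard : ℕ) : ℝ) ≤
      9 * (H * Real.exp (-(U * (5 / 6)))) := by
    rw [mul_add] at hmain
    linarith
  have h6 : (9 : ℝ) ≤ Real.exp (U / 2) := by
    have := Real.add_one_le_exp (U / 2)
    linarith
  calc (({n | 2 ≤ n ∧ P n ∧ X < c n ∧ c n ≤ X + H}.ncard : ℕ) : ℝ) ≤ 9 * (H * Real.exp (-(U * (5 / 6)))) := hfin
    _ ≤ Real.exp (U / 2) * (H * Real.exp (-(U * (5 / 6)))) := by gcongr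
    _ = H * (Real.exp (U / 2) * Real.exp (-(U * (5 / 6)))) := by ring
    _ = H * Real.exp (-(U / 3)) := by
        rw [← Real.exp_add]
        congr 2
        ring

end Pool.Agent.H8.SG
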