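import Pool.Agent.H8.SG.Asm
import Pool.Agent.H89.CY.Fin3

/-!
[H8 SG FIN] all but C y exp (- (log x)^c) of the gaps after the c n in (x, x + y] are shorter than (log c n)^eps, if
x ^ (2/5 + delta) ≤ y ≤ x. The proof follows Fin3 of H89/CY (helper89).
-/

namespace Pool.Agent.H8.SG

open Finset Classical Filter Pool.Agent.H89.CY

/-- the number of the `n` in `P` with `c n` in `(x, x + y]` -/
noncomputable def NS (P : ℕ → Prop) (x y : ℕ) : ℕ := {n | 2 ≤ n ∧ P n ∧ x < c n ∧ c n ≤ x + y}.ncard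

theorem NS_fin (P : ℕ → Prop) (x y : ℕ) : {n | 2 ≤ n ∧ P n ∧ x < c n ∧ c n ≤ x + y}.Finite := by
  apply (Set.finite_Iic (x + y)).subset
  rintro n ⟨h1, _, _, h2⟩
  exact (c_ge n (by omega)).trans h2

theorem NS_le (P : ℕ → Prop) (x y : ℕ) : NS P x y ≤ y := by
  have h : NS P x y ≤ (Ioc x (x + y) : Finset ℕ).card := by
    unfold NS
    rw [← Set.ncard_coe_finset]
    refine Set.ncard_le_ncard_of_injOn c ?_ ?_ (Finset.finite_toSet _)
    · rintro n ⟨_, _, h1, h2⟩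
      rw [mem_coe, mem_Ioc]
      exact ⟨h1, h2⟩
    · rintro n ⟨hn, _⟩ m ⟨hm, _⟩ h
      rcases Nat.lt_trichotomy n m with h1 | h1 | h1
      · have := c_lt n m (by omega) h1
        omega
      · exact h1
      · have := c_lt m n (by omega) h1
        omega
  rw [Nat.card_Ioc] at h
  omega

theorem NS_split (P : ℕ → Prop) (x y1 y2 : ℕ) : NS P x (y1 + y2) ≤ NS P x y1 + NS P (x + y1) y2 := by
  unfold NS
  refine le_trans (Set.ncard_le_ncard ?_ ((NS_fin P x y1).union (NS_fin P (x + y1) y2))) (Set.ncard_union_le _ _)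
  rintro n ⟨h1, h2, h3, h4⟩
  rcases Nat.lt_or_ge (x + y1) (c n) with h | h
  · right
    exact ⟨h1, h2, h, by omega⟩
  · left
    exact ⟨h1, h2, h3, h⟩

theorem NS_mono (P Q : ℕ → Prop) (x y : ℕ) (h : ∀ n, 2 ≤ n → x < c n → P n → Q n) : NS P x y ≤ NS Q x y := by
  unfold NS
  refine Set.ncard_le_ncard ?_ (NS_fin Q x y)
  rintro n ⟨h1, h2, h3, h4⟩
  exact ⟨h1, h n h1 h3 h2, h3, h4⟩

/-- one short interval -/
theorem shortL (hb : ∀ d : ℝ, 0 < d → d ≤ 1 / 10 → ∃ (C0 W0 : ℝ) (x0 : ℕ), 0 < C0 ∧ BadB d C0 W0 x0)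
    (ε : ℝ) (hε : 0 < ε) (hε1 : ε ≤ 1) : ∃ c' : ℝ, 0 < c' ∧ ∀ d : ℝ, 0 < d → d ≤ 1 / 10 → ∃ x1 : ℕ, 2 ≤ x1 ∧
    ∀ X H : ℕ, x1 ≤ X → (X : ℝ) ^ (2 / 5 + d) ≤ H → 2 * H ≤ X →
    (NS (Long ε) X H : ℝ) ≤ H * Real.exp (-(Real.log X) ^ c') := by
  obtain ⟨C, hC, hfz0⟩ := finS
  obtain ⟨K0, hK0⟩ := exists_nat_ge (5 / ε)
  set K := max 5 K0 with hKdef
  have hK5 : 5 ≤ K := le_max_left _ _
  have hKe : 5 / ε ≤ K := hK0.trans (by exact_mod_cast le_max_right 5 K0)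
  have hCr : (0 : ℝ) < C := by exact_mod_cast (by omega : 0 < C)
  have hKr : (0 : ℝ) < K := by exact_mod_cast (by omega : 0 < K)
  have hKC1 : 1 ≤ K * C := Nat.mul_pos (by omega) (by omega)
  set e : ℝ := 1 / ((K * C : ℕ) : ℝ) with he
  set c' : ℝ := 1 / ((K + 1) * C) with hc
  have hcp : 0 < c' := by rw [hc]; positivity
  have hep : 0 < e := by rw [he]; push_cast; positivity
  have hec : 0 < e - c' := by
    rw [he, hc]
    push_cast
    rw [sub_pos]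
    apply one_div_lt_one_div_of_lt (by positivity)
    nlinarith
  refine ⟨c', hcp, fun d hd hd1 => ?_⟩
  obtain ⟨C0, W0, x0, hC0, hbad⟩ := hb d hd hd1
  obtain ⟨u0, hu0, hfz⟩ := hfz0 K hK5 d C0 W0 x0 hd hC0 hbad
  have tN : Tendsto (fun N : ℕ => Real.log (N : ℝ)) atTop atTop :=
    Real.tendsto_log_atTop.comp tendsto_natCast_atTop_atTop
  have e1 : ∀ᶠ y : ℝ in atTop, 2 * ((u0 : ℝ) + 1) ≤ y ^ e := (tendsto_rpow_atTop hep).eventually_ge_atTop _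
  have e2 : ∀ᶠ y : ℝ in atTop, (12 : ℝ) ≤ y ^ (e - c') := (tendsto_rpow_atTop hec).eventually_ge_atTop _
  have e4 : ∀ᶠ y : ℝ in atTop, (1 : ℝ) ≤ y := eventually_ge_atTop 1
  obtain ⟨x2, hx2⟩ := eventually_atTop.1 (tN.eventually (e1.and (e2.and e4)))
  refine ⟨max x2 2, le_max_right _ _, ?_⟩
  intro X H hX hH1 hH2
  obtain ⟨g1, g2, g4⟩ := hx2 X ((le_max_left _ _).trans hX)
  have hX2 : 2 ≤ X := (le_max_right _ _).trans hX
  have hX0 : (0 : ℝ) < X := by exact_mod_cast (by omega : 0 < X)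
  set x := Real.log (X : ℝ) with hx
  have hx0 : 0 ≤ x := by linarith
  have hx00 : 0 < x := by linarith
  have hXx : (X : ℝ) = Real.exp x := by rw [hx, Real.exp_log hX0]
  obtain ⟨p1, p2⟩ := pick2 (K * C) hKC1 x hx0
  rw [← he] at p1 p2
  set u := ⌊x ^ e⌋₊ with hu
  have hulow : x ^ e / 2 ≤ u := by
    have h1 := (Nat.lt_floor_add_one (x ^ e)).le
    rw [← hu] at h1
    have h2 : (0 : ℝ) ≤ u0 := Nat.cast_nonneg _
    linarith
  have huu0 : u0 ≤ u := by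
    have : (u0 : ℝ) ≤ u := by linarith
    exact_mod_cast this
  have hu1 : (1 : ℝ) ≤ u := by exact_mod_cast hu0.trans huu0
  have key := hfz u huu0 X H (by rw [hXx]; gcongr) (by rw [hXx]; gcongr) hH1 hH2 (Long ε)
    (fun n _ hL hXn => long_step ε hε hε1 K C hKe u x hu1 p1 n hL (by
      have h1 : (X : ℝ) ≤ c n := by exact_mod_cast hXn.le
      refine le_trans ?_ h1
      rw [hXx]
      apply Real.exp_le_exp.2
      linarith))
  have hexp : x ^ c' ≤ (u : ℝ) / 3 := by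
    have h1 : x ^ e = x ^ (e - c') * x ^ c' := by
      rw [← Real.rpow_add hx00]
      congr 1
      ring
    have h4 : 0 ≤ x ^ c' := by positivity
    have h5 : 12 * x ^ c' ≤ x ^ e := by rw [h1]; gcongr
    linarith
  unfold NS
  refine key.trans ?_
  gcongr

/-- the range `x ^ (2/5 + δ) ≤ y ≤ x` -/
theorem shortM (hb : ∀ d : ℝ, 0 < d → d ≤ 1 / 10 → ∃ (C0 W0 : ℝ) (x0 : ℕ), 0 < C0 ∧ BadB d C0 W0 x0)
    (ε : ℝ) (hε : 0 < ε) (hε1 : ε ≤ 1) : ∃ c' : ℝ, 0 < c' ∧ ∀ δ : ℝ, 0 < δ → ∃ x1 : ℕ, 2 ≤ x1 ∧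
    ∀ x y : ℕ, x1 ≤ x → (x : ℝ) ^ (2 / 5 + δ) ≤ y → y ≤ x →
    (NS (Long ε) x y : ℝ) ≤ y * Real.exp (-(Real.log x) ^ c') := by
  obtain ⟨c', hc', h⟩ := shortL hb ε hε hε1
  refine ⟨c', hc', fun δ hδ => ?_⟩
  set d : ℝ := min δ (1 / 10) / 2 with hd
  have hm : 0 < min δ (1 / 10) := lt_min hδ (by norm_num)
  have hd0 : 0 < d := by rw [hd]; linarith
  have hd1 : d ≤ 1 / 10 := by
    have := min_le_right δ (1 / 10)
    rw [hd]; linarith
  have hdδ : 0 < δ - d := by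
    have := min_le_left δ (1 / 10)
    rw [hd]; linarith
  obtain ⟨x1, hx1, h1⟩ := h d hd0 hd1
  have t1 : Tendsto (fun x : ℕ => (x : ℝ)) atTop atTop := tendsto_natCast_atTop_atTop
  obtain ⟨x2, hx2⟩ := eventually_atTop.1
    (((tendsto_rpow_atTop hdδ).comp t1).eventually_ge_atTop (6 : ℝ))
  refine ⟨max x1 (max x2 6), hx1.trans (le_max_left _ _), ?_⟩
  intro x y hx hy hyx
  have b1 : x1 ≤ x := (le_max_left _ _).trans hx
  have b2 : x2 ≤ x := (le_max_left _ _).trans ((le_max_right _ _).trans hx)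
  have b3 : 6 ≤ x := (le_max_right _ _).trans ((le_max_right _ _).trans hx)
  have hxR : (6 : ℝ) ≤ x := by exact_mod_cast b3
  have hx0 : (0 : ℝ) < x := by linarith
  have g := hx2 x b2
  simp only [Function.comp] at g
  have hy6 : 6 * (x : ℝ) ^ (2 / 5 + d) ≤ y := by
    have e : (x : ℝ) ^ (2 / 5 + δ) = (x : ℝ) ^ (δ - d) * (x : ℝ) ^ (2 / 5 + d) := by
      rw [← Real.rpow_add hx0]
      congr 1
      ring
    rw [e] at hy
    refine le_trans ?_ hy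
    gcongr
  have hp1 : 1 ≤ (x : ℝ) ^ (2 / 5 + d) := Real.one_le_rpow (by linarith) (by positivity)
  have hyR : (6 : ℝ) ≤ y := by linarith
  have hyN : 6 ≤ y := by exact_mod_cast hyR
  obtain ⟨y1, hy1⟩ : ∃ y1 : ℕ, y1 = y / 2 := ⟨_, rfl⟩
  obtain ⟨y2, hy2⟩ : ∃ y2 : ℕ, y2 = y - y / 2 := ⟨_, rfl⟩
  have hyy : y = y1 + y2 := by omega
  have c1 : (y : ℝ) ≤ 3 * y1 := by exact_mod_cast (by omega : y ≤ 3 * y1)
  have c2 : (y : ℝ) ≤ 3 * y2 := by exact_mod_cast (by omega : y ≤ 3 * y2)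
  have hA := h1 x y1 b1 (by linarith) (by omega)
  have hx' : ((x + y1 : ℕ) : ℝ) ≤ 2 * x := by exact_mod_cast (by omega : x + y1 ≤ 2 * x)
  have hB := h1 (x + y1) y2 (by omega) (by
    have q1 : ((x + y1 : ℕ) : ℝ) ^ (2 / 5 + d) ≤ (2 * x) ^ (2 / 5 + d) := by gcongr
    have q2 : (2 * (x : ℝ)) ^ (2 / 5 + d) = 2 ^ (2 / 5 + d) * (x : ℝ) ^ (2 / 5 + d) :=
      Real.mul_rpow (by norm_num) hx0.le
    have q3 : (2 : ℝ) ^ (2 / 5 + d) ≤ 2 := by
      have := Real.rpow_le_rpow_of_exponent_le (show (1 : ℝ) ≤ 2 by norm_num) (show 2 / 5 + d ≤ 1 by linarith)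
      rwa [Real.rpow_one] at this
    have q4 : (2 : ℝ) ^ (2 / 5 + d) * (x : ℝ) ^ (2 / 5 + d) ≤ 2 * (x : ℝ) ^ (2 / 5 + d) := by gcongr
    linarith) (by omega)
  have hs := NS_split (Long ε) x y1 y2
  rw [← hyy] at hs
  have hs' : (NS (Long ε) x y : ℝ) ≤ NS (Long ε) x y1 + NS (Long ε) (x + y1) y2 := by exact_mod_cast hs
  have hlog0 : 0 ≤ Real.log (x : ℝ) := Real.log_nonneg (by linarith)
  have hlog : Real.log (x : ℝ) ≤ Real.log ((x + y1 : ℕ) : ℝ) := by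
    apply Real.log_le_log hx0
    exact_mod_cast (by omega : x ≤ x + y1)
  have hpow : (Real.log (x : ℝ)) ^ c' ≤ (Real.log ((x + y1 : ℕ) : ℝ)) ^ c' := Real.rpow_le_rpow hlog0 hlog hc'.le
  have hB' : (NS (Long ε) (x + y1) y2 : ℝ) ≤ y2 * Real.exp (-(Real.log x) ^ c') := by
    refine hB.trans ?_
    gcongr
  calc (NS (Long ε) x y : ℝ) ≤ y1 * Real.exp (-(Real.log x) ^ c') + y2 * Real.exp (-(Real.log x) ^ c') := by
        linarith
    _ = y * Real.exp (-(Real.log x) ^ c') := by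
        rw [hyy]; push_cast; ring

/-- from large `x` to all `x` -/
theorem ext_allS (P : ℕ → Prop) (δ c' : ℝ) (hc : 0 < c') (x1 : ℕ) (hx1 : 2 ≤ x1)
    (h : ∀ x y : ℕ, x1 ≤ x → (x : ℝ) ^ (2 / 5 + δ) ≤ y → y ≤ x →
      (NS P x y : ℝ) ≤ y * Real.exp (-(Real.log x) ^ c')) :
    ∃ C : ℝ, 0 < C ∧ ∀ x y : ℕ, 2 ≤ x → (x : ℝ) ^ (2 / 5 + δ) ≤ y → y ≤ x →
      (NS P x y : ℝ) ≤ C * y * Real.exp (-(Real.log x) ^ c') := by
  have hl1 : 0 ≤ Real.log (x1 : ℝ) := Real.log_nonneg (by exact_mod_cast (by omega : 1 ≤ x1))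
  refine ⟨Real.exp ((Real.log (x1 : ℝ)) ^ c'), Real.exp_pos _, ?_⟩
  intro x y hx hy hyx
  have hC1 : 1 ≤ Real.exp ((Real.log (x1 : ℝ)) ^ c') := Real.one_le_exp (by positivity)
  have hy0 : (0 : ℝ) ≤ y := Nat.cast_nonneg _
  rcases le_or_gt x1 x with h1 | h1
  · refine (h x y h1 hy hyx).trans ?_
    gcongr
    nlinarith
  · have h3 : (2 : ℝ) ≤ x := by exact_mod_cast hx
    have hlx : 0 ≤ Real.log x := Real.log_nonneg (by linarith)
    have h4 : Real.log x ≤ Real.log (x1 : ℝ) := by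
      apply Real.log_le_log (by linarith)
      exact_mod_cast h1.le
    have h5 : 1 ≤ Real.exp ((Real.log (x1 : ℝ)) ^ c') * Real.exp (-(Real.log x) ^ c') := by
      rw [← Real.exp_add]
      apply Real.one_le_exp
      have := Real.rpow_le_rpow hlx h4 hc.le
      linarith
    have h6 : (NS P x y : ℝ) ≤ y := by exact_mod_cast NS_le P x y
    calc (NS P x y : ℝ) ≤ y * 1 := by linarith
      _ ≤ y * (Real.exp ((Real.log (x1 : ℝ)) ^ c') * Real.exp (-(Real.log x) ^ c')) := by gcongr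
      _ = _ := by ring

theorem finA (hb : ∀ d : ℝ, 0 < d → d ≤ 1 / 10 → ∃ (C0 W0 : ℝ) (x0 : ℕ), 0 < C0 ∧ BadB d C0 W0 x0) :
    (∀ ε : ℝ, 0 < ε → ∃ c' : ℝ, 0 < c' ∧ ∀ δ : ℝ, 0 < δ → ∃ C : ℝ, 0 < C ∧ ∀ x y : ℕ, 2 ≤ x →
      (x : ℝ) ^ (2 / 5 + δ) ≤ y → y ≤ x → (NS (Long ε) x y : ℝ) ≤ C * y * Real.exp (-(Real.log x) ^ c')) ∧
    (∃ c' : ℝ, 0 < c' ∧ ∀ δ : ℝ, 0 < δ →
      (∃ C : ℝ, 0 < C ∧ ∀ x y : ℕ, 2 ≤ x → (x : ℝ) ^ (2 / 5 + δ) ≤ y → y ≤ x →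
        (NS Fails x y : ℝ) ≤ C * y * Real.exp (-(Real.log x) ^ c')) ∧
      (∀ lam : ℝ, 0 < lam → ∃ C : ℝ, 0 < C ∧ ∀ x y : ℕ, 2 ≤ x → (x : ℝ) ^ (2 / 5 + δ) ≤ y → y ≤ x →
        (NS (FailsL lam) x y : ℝ) ≤ C * y * Real.exp (-(Real.log x) ^ c'))) := by
  constructor
  · intro ε hε
    obtain ⟨c', hc', h⟩ := shortM hb (min ε 1) (lt_min hε one_pos) (min_le_right _ _)
    refine ⟨c', hc', fun δ hδ => ?_⟩
    obtain ⟨x1, hx1, h1⟩ := h δ hδ
    refine ext_allS (Long ε) δ c' hc' (max x1 3) (hx1.trans (le_max_left _ _)) fun x y hx hy hyx => ?_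
    refine le_trans ?_ (h1 x y ((le_max_left _ _).trans hx) hy hyx)
    have hx3 : 3 ≤ x := (le_max_right _ _).trans hx
    exact_mod_cast NS_mono (Long ε) (Long (min ε 1)) x y (by
      intro n _ hn hL
      unfold Long at hL ⊢
      refine le_trans ?_ hL
      apply Real.rpow_le_rpow_of_exponent_le _ (min_le_left _ _)
      have h3 : (3 : ℝ) ≤ c n := by exact_mod_cast hx3.trans hn.le
      rw [Real.le_log_iff_exp_le (by linarith)]
      linarith [Real.exp_one_lt_d9])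
  · obtain ⟨c', hc', h⟩ := shortM hb (1 / 2) (by norm_num) (by norm_num)
    refine ⟨c', hc', fun δ hδ => ?_⟩
    obtain ⟨x1, hx1, h1⟩ := h δ hδ
    have main : ∀ lam : ℝ, 0 < lam → ∀ P : ℕ → Prop, (∀ n, 2 ≤ n → P n → FailsL lam n) →
        ∃ C : ℝ, 0 < C ∧ ∀ x y : ℕ, 2 ≤ x → (x : ℝ) ^ (2 / 5 + δ) ≤ y → y ≤ x →
        (NS P x y : ℝ) ≤ C * y * Real.exp (-(Real.log x) ^ c') := by
      intro lam hl P hP
      obtain ⟨n0, hn0⟩ := fails_long lam hl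
      refine ext_allS P δ c' hc' (max x1 (c (n0 + 1))) (hx1.trans (le_max_left _ _)) fun x y hx hy hyx => ?_
      refine le_trans ?_ (h1 x y ((le_max_left _ _).trans hx) hy hyx)
      have hxc : c (n0 + 1) ≤ x := (le_max_right _ _).trans hx
      exact_mod_cast NS_mono P (Long (1 / 2)) x y (by
        intro n hn2 hn hPn
        refine hn0 n ?_ hn2 (hP n hn2 hPn)
        by_contra hcon
        rw [not_le] at hcon
        have := c_lt n (n0 + 1) (by omega) (by omega)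
        omega)
    exact ⟨main 1 one_pos Fails fails_one, fun lam hl => main lam hl _ (fun n _ h => h)⟩

end Pool.Agent.H8.SG
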