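import Pool.Agent.H8.SG.Sv
import Pool.Agent.H89.CY.GapP
import Pool.Agent.H69.CP.Def

/-!
[H8 SG GEN] the counting lemma for the indices `n` with `c n` in a short interval `(X, X + H]`.
-/

namespace Pool.Agent.H8.SG

open Finset Classical Pool.Agent.H89.CY
open Pool.Agent.H69.CP (Rough)

private theorem div_ltS (P : ℕ → Prop) (D k X : ℕ) (hD : 2 ≤ D)
    (hP : ∀ n, 2 ≤ n → P n → X < c n → c n + (k + 1) * D ≤ c (n + 1)) (n m : ℕ)
    (hn : 2 ≤ n) (hf : P n) (hXn : X < c n) (hm : n < m) : c n / D < c m / D := by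
  have h1 := hP n hn hf hXn
  have h2 : c (n + 1) ≤ c m := by
    rcases Nat.lt_or_ge (n + 1) m with h | h
    · exact (c_lt (n + 1) m (by omega) h).le
    · have : n + 1 = m := by omega
      rw [this]
  have h3 : c n + D ≤ c m := by nlinarith
  have hD0 : 0 < D := by omega
  calc c n / D < c n / D + 1 := Nat.lt_succ_self _
    _ = (c n + D) / D := (Nat.add_div_right (c n) hD0).symm
    _ ≤ c m / D := Nat.div_le_div_right h3

theorem cntS (P : ℕ → Prop) (D k X H : ℕ) (hD : 2 ≤ D)
    (hP : ∀ n, 2 ≤ n → P n → X < c n → c n + (k + 1) * D ≤ c (n + 1)) :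
    {n | 2 ≤ n ∧ P n ∧ X < c n ∧ c n ≤ X + H}.ncard ≤
      ((range (H / D + 2)).filter (fun s => ∀ j < k, ¬ Cyc (1 + D * (X / D + 1) + D * (s + j)))).card := by
  have hD0 : 0 < D := by omega
  rw [← Set.ncard_coe_finset]
  refine Set.ncard_le_ncard_of_injOn (fun n => c n / D - X / D) ?_ ?_ ?_
  · rintro n ⟨hn, hf, hXn, hX⟩
    have h1 := hP n hn hf hXn
    have hq : X / D ≤ c n / D := Nat.div_le_div_right hXn.le
    have hq2 : c n / D ≤ X / D + H / D + 1 := by
      refine (Nat.div_le_div_right hX).trans ?_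
      rw [← Nat.lt_succ_iff, Nat.div_lt_iff_lt_mul hD0]
      have e1 := Nat.lt_mul_div_succ X hD0
      have e2 := Nat.lt_mul_div_succ H hD0
      have e3 : (X / D + H / D + 1).succ * D = D * (X / D + 1) + D * (H / D + 1) := by
        rw [Nat.succ_eq_add_one]; ring
      omega
    rw [coe_filter]
    refine ⟨mem_range.2 (by omega), ?_⟩
    intro j hj
    have h2 : D * (c n / D) ≤ c n := Nat.mul_div_le (c n) D
    have h3 : c n < D * (c n / D) + D := by
      have := Nat.lt_mul_div_succ (c n) hD0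
      rw [Nat.mul_add, Nat.mul_one] at this
      exact this
    have h4 : 1 + D * (X / D + 1) + D * (c n / D - X / D + j) = 1 + (D * (c n / D) + D + D * j) := by
      obtain ⟨q, hq'⟩ := Nat.exists_eq_add_of_le hq
      rw [hq', Nat.add_sub_cancel_left]
      ring
    have h5 : D * j + D ≤ D * k := by
      have : D * (j + 1) ≤ D * k := Nat.mul_le_mul_left D hj
      rw [Nat.mul_add, Nat.mul_one] at this
      exact this
    have h6 : (k + 1) * D = D * k + D := by ring
    apply no_cyc n _ (by omega)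
    · rw [h4]
      omega
    · rw [h4]
      omega
  · rintro n ⟨hn, hf, hAn, _⟩ m ⟨hm, hfm, hAm, _⟩ h
    have hq1 : X / D ≤ c n / D := Nat.div_le_div_right hAn.le
    have hq2 : X / D ≤ c m / D := Nat.div_le_div_right hAm.le
    have h' : c n / D = c m / D := by
      have h0 : c n / D - X / D = c m / D - X / D := h
      omega
    rcases Nat.lt_trichotomy n m with h1 | h1 | h1
    · have := div_ltS P D k X hD hP n m hn hf hAn h1
      omega
    · exact h1
    · have := div_ltS P D k X hD hP m n hm hfm hAm h1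
      omega
  · exact Finset.finite_toSet _

/-- `m ≡ 1 (mod primorial w)` without prime factor in `(w, z]` has no prime factor up to `z` -/
theorem rough_of (w z m q : ℕ) (hm : m = 1 + primorial w * q) (h : ∀ p ∈ PR w z, ¬ p ∣ m) : Rough (z : ℝ) m := by
  intro p hp hpm
  by_contra hcon
  rw [not_lt] at hcon
  have hpz : p ≤ z := by exact_mod_cast hcon
  rcases Nat.lt_or_ge w p with hw | hw
  · apply h p _ hpm
    unfold PR
    rw [mem_filter, mem_Icc]
    exact ⟨⟨by omega, hpz⟩, hp⟩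
  · have h1 : p ∣ primorial w := (Nat.Prime.dvd_primorial_iff hp).2 hw
    have h2 : p ∣ primorial w * q := Dvd.dvd.mul_right h1 q
    rw [hm] at hpm
    have h3 : p ∣ 1 := (Nat.dvd_add_left h2).1 hpm
    exact hp.one_lt.ne' (Nat.dvd_one.1 h3)

theorem two_setsS (w k z D X H : ℕ) (hD : D = primorial w) (hD2 : 2 ≤ D) :
    ((range (H / D + 2)).filter (fun s => ∀ j < k, ¬ Cyc (1 + D * (X / D + 1) + D * (s + j)))).card ≤
      ((range (H / D + 2)).filter (fun s => ∀ j < k, ∃ p ∈ PR w z, p ∣ 1 + D * (X / D + 1) + D * (s + j))).card +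
      k * ((Ioc X (X + (H + (k + 2) * D + 1))).filter
        (fun m => ¬ Pool.Agent.H69.CY.IsCyclicNumber m ∧ Rough (z : ℝ) m)).card := by
  have hD0 : 0 < D := by omega
  set B := (Ioc X (X + (H + (k + 2) * D + 1))).filter
        (fun m => ¬ Pool.Agent.H69.CY.IsCyclicNumber m ∧ Rough (z : ℝ) m) with hB
  have hsub : (range (H / D + 2)).filter (fun s => ∀ j < k, ¬ Cyc (1 + D * (X / D + 1) + D * (s + j))) ⊆
      (range (H / D + 2)).filter (fun s => ∀ j < k, ∃ p ∈ PR w z, p ∣ 1 + D * (X / D + 1) + D * (s + j)) ∪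
      (range k).biUnion (fun j => (range (H / D + 2)).filter
        (fun s => 1 + D * (X / D + 1) + D * (s + j) ∈ B)) := by
    intro s hs
    rw [mem_filter, mem_range] at hs
    rw [mem_union, mem_filter, mem_biUnion]
    by_cases h : ∀ j < k, ∃ p ∈ PR w z, p ∣ 1 + D * (X / D + 1) + D * (s + j)
    · left
      exact ⟨mem_range.2 hs.1, h⟩
    · right
      push Not at h
      obtain ⟨j, hj, hp⟩ := h
      refine ⟨j, mem_range.2 hj, ?_⟩
      rw [mem_filter, mem_range]
      refine ⟨hs.1, ?_⟩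
      rw [hB, mem_filter, mem_Ioc]
      have e0 : 1 + D * (X / D + 1) + D * (s + j) = 1 + D * (X / D + 1 + (s + j)) := by ring
      have e1 := Nat.lt_mul_div_succ X hD0
      have e2 := Nat.mul_div_le X D
      have e3 := Nat.mul_div_le H D
      have e4 : D * (s + j) ≤ D * (H / D + 1 + k) := Nat.mul_le_mul_left D (by omega)
      have e5 : D * (H / D + 1 + k) = D * (H / D) + D + D * k := by ring
      have e6 : (k + 2) * D = D * k + 2 * D := by ring
      have e7 : D * (X / D + 1) = D * (X / D) + D := by ring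
      refine ⟨⟨by omega, by omega⟩, ?_, ?_⟩
      · rintro ⟨_, h2⟩
        exact hs.2 j hj h2
      · refine rough_of w z _ (X / D + 1 + (s + j)) ?_ hp
        rw [← hD]
        exact e0
  refine (card_le_card hsub).trans ((card_union_le _ _).trans (Nat.add_le_add_left ?_ _))
  refine card_biUnion_le.trans ?_
  calc ∑ j ∈ range k, ((range (H / D + 2)).filter (fun s => 1 + D * (X / D + 1) + D * (s + j) ∈ B)).card
      ≤ ∑ _j ∈ range k, B.card := by
        refine sum_le_sum fun j _ => ?_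
        refine card_le_card_of_injOn (fun s => 1 + D * (X / D + 1) + D * (s + j)) ?_ ?_
        · intro s hs
          rw [mem_coe, mem_filter] at hs
          exact hs.2
        · intro s _ s' _ h
          have h' : D * (s + j) = D * (s' + j) := Nat.add_left_cancel h
          have := Nat.eq_of_mul_eq_mul_left hD0 h'
          omega
    _ = k * B.card := by rw [sum_const, card_range, smul_eq_mul]

theorem genS (P : ℕ → Prop) (w y k z D r M X H : ℕ) (hwy : w < y) (hD : D = primorial w) (hD2 : 2 ≤ D)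
    (hP : ∀ n, 2 ≤ n → P n → X < c n → c n + (k + 1) * D ≤ c (n + 1))
    (hJ : ∀ a : ℕ, ∃ b : ℕ, b + y ≤ k ∧
      M ≤ ((range y).filter (fun j => ∀ p ∈ PR w y, ¬ p ∣ 1 + D * (a + b + j))).card) (B : ℝ)
    (hB : (((Ioc X (X + (H + (k + 2) * D + 1))).filter
        (fun m => ¬ Pool.Agent.H69.CY.IsCyclicNumber m ∧ Rough (z : ℝ) m)).card : ℝ) ≤ B) :
    (({n | 2 ≤ n ∧ P n ∧ X < c n ∧ c n ≤ X + H}.ncard : ℕ) : ℝ) ≤
      (k + 1) * ((((H / D + 2 : ℕ) : ℝ) + k + (∏ p ∈ PR w y, p : ℕ)) *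
        ((1 - ∏ p ∈ PR y z, (1 - 1 / (p : ℝ))) ^ M +
        2 * Real.exp (9 * (y * ∑ p ∈ PR y z, 1 / (p : ℝ))) / 3 ^ r)
      + 4 * (∏ p ∈ PR w y, p : ℕ) * (3 * ((z : ℝ) * y + 1)) ^ r) + k * B := by
  have e1 := cntS P D k X H hD2 hP
  have e3 := two_setsS w k z D X H hD hD2
  have e4 := sv2 (1 + D * (X / D + 1)) w y k z D (H / D + 2) r M hwy hD (by
    intro a
    obtain ⟨b, hb, hM⟩ := hJ (X / D + 1 + a)
    refine ⟨b, hb, hM.trans (le_of_eq ?_)⟩
    congr 1
    refine filter_congr fun j _ => forall₂_congr fun p _ => ?_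
    have e : 1 + D * (X / D + 1 + a + b + j) = 1 + D * (X / D + 1) + D * (a + b + j) := by ring
    rw [e])
  have e5 : (k : ℝ) * ((((Ioc X (X + (H + (k + 2) * D + 1))).filter
        (fun m => ¬ Pool.Agent.H69.CY.IsCyclicNumber m ∧ Rough (z : ℝ) m)).card : ℕ) : ℝ) ≤ k * B := by
    gcongr
  have e6 : (({n | 2 ≤ n ∧ P n ∧ X < c n ∧ c n ≤ X + H}.ncard : ℕ) : ℝ) ≤
      (((range (H / D + 2)).filter (fun s => ∀ j < k, ∃ p ∈ PR w z, p ∣ 1 + D * (X / D + 1) + D * (s + j))).card : ℝ) +
      (k : ℝ) * ((((Ioc X (X + (H + (k + 2) * D + 1))).filter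
        (fun m => ¬ Pool.Agent.H69.CY.IsCyclicNumber m ∧ Rough (z : ℝ) m)).card : ℕ) : ℝ) := by
    exact_mod_cast e1.trans e3
  linarith

end Pool.Agent.H8.SG
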